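import Mathlib
import Pool.Agent.helper30.JohnStromberg

set_option autoImplicit false

open MeasureTheory Metric Set Filter
open scoped ENNReal NNReal Topology ComplexConjugate

namespace Pool.Agent.Results.MP_9d555c_an.SmallBMO

/-- The Euclidean space of dimension `n`. -/
abbrev E (n : ℕ) := EuclideanSpace ℝ (Fin n)

variable {n : ℕ}

/-- The closed cube with centre `c`, half side length `r` and sides parallel to the axes. -/
def cube (c : E n) (r : ℝ) : Set (E n) := {x | ∀ i, |x i - c i| ≤ r}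

/-- The norm `‖β‖_*`, as an extended nonnegative real. -/
noncomputable def bmoNorm (β : E n → ℝ) : ℝ≥0∞ :=
  ⨆ (c : E n) (r : ℝ) (_ : 0 < r),
    (∫⁻ x in cube c r, ‖β x - ⨍ y in cube c r, β y‖ₑ) / volume (cube c r)

/-- The convolution kernel `Ω(z/|z|)/|z|^n`. -/
noncomputable def kernel (Ω : E n → ℂ) (z : E n) : ℂ := Ω (‖z‖⁻¹ • z) / (‖z‖ : ℂ) ^ n

/-- The principal value integral `K f (x)`. -/
noncomputable def singInt (Ω : E n → ℂ) (f : E n → ℂ) (x : E n) : ℂ :=
  limUnder (𝓝[>] (0 : ℝ)) fun ε => ∫ y in {y | ε < ‖x - y‖}, kernel Ω (x - y) * f y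

/-- The conjugated operator `K_β f = e^{-β} K (e^β f)`. -/
noncomputable def conjInt (Ω : E n → ℂ) (β : E n → ℝ) (f : E n → ℂ) (x : E n) : ℂ :=
  (Real.exp (-β x) : ℂ) * singInt Ω (fun y => (Real.exp (β y) : ℂ) * f y) x

/-- Test functions: bounded, measurable, compactly supported, with `e^β f` bounded too. -/
structure IsTest (β : E n → ℝ) (f : E n → ℂ) : Prop where
  meas : Measurable f
  compact : HasCompactSupport f
  bdd : ∃ C : ℝ, ∀ x, ‖f x‖ ≤ C
  bddExp : ∃ C : ℝ, ∀ x, ‖(Real.exp (β x) : ℂ) * f x‖ ≤ C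

/-- The operator norm of `K - K_β` on `L²`. -/
noncomputable def diffNorm (Ω : E n → ℂ) (β : E n → ℝ) : ℝ≥0∞ :=
  ⨆ (f : E n → ℂ) (_ : IsTest β f),
    eLpNorm (fun x => singInt Ω f x - conjInt Ω β f x) 2 volume / eLpNorm f 2 volume

/-! ### Cubes -/

lemma preimage_cube (c : E n) (r : ℝ) (hr : 0 ≤ r) :
    (WithLp.toLp 2 : (Fin n → ℝ) → E n) ⁻¹' (cube c r) = closedBall (WithLp.ofLp c) r := by
  ext x
  simp only [mem_preimage, cube, mem_closedBall, dist_pi_le_iff hr, Real.dist_eq]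
  rfl

lemma volume_preimage (s : Set (E n)) :
    volume ((WithLp.toLp 2 : (Fin n → ℝ) → E n) ⁻¹' s) = volume s :=
  (PiLp.volume_preserving_toLp (Fin n)).measure_preimage_equiv
    (f := MeasurableEquiv.toLp 2 (Fin n → ℝ)) s

lemma volume_cube (c : E n) {r : ℝ} (hr : 0 ≤ r) :
    volume (cube c r) = ENNReal.ofReal ((2 * r) ^ n) := by
  rw [← volume_preimage, preimage_cube c r hr, helper30.JS.vol_cube _ hr]

lemma isClosed_cube (c : E n) (r : ℝ) : IsClosed (cube c r) := by
  have : cube c r = ⋂ i, {x : E n | |x i - c i| ≤ r} := by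
    ext x; simp [cube]
  rw [this]
  refine isClosed_iInter fun i => isClosed_le ?_ continuous_const
  fun_prop

lemma norm_sub_le_of_mem_cube {c x : E n} {r : ℝ} (hr : 0 ≤ r) (hx : x ∈ cube c r) :
    ‖x - c‖ ≤ √n * r := by
  rw [EuclideanSpace.norm_eq]
  have h1 : ∑ i : Fin n, ‖(x - c) i‖ ^ 2 ≤ n * r ^ 2 := by
    calc ∑ i : Fin n, ‖(x - c) i‖ ^ 2 ≤ ∑ _i : Fin n, r ^ 2 := by
          refine Finset.sum_le_sum fun i _ => ?_
          have := hx i
          rw [Real.norm_eq_abs]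
          have h2 : (x - c) i = x i - c i := rfl
          rw [h2]
          exact pow_le_pow_left₀ (abs_nonneg _) this 2
      _ = n * r ^ 2 := by simp
  calc √(∑ i : Fin n, ‖(x - c) i‖ ^ 2) ≤ √(n * r ^ 2) := Real.sqrt_le_sqrt h1
    _ = √n * r := by
      rw [Real.sqrt_mul (by positivity), Real.sqrt_sq hr]

lemma isCompact_cube (c : E n) {r : ℝ} (hr : 0 ≤ r) : IsCompact (cube c r) := by
  refine isCompact_of_isClosed_isBounded (isClosed_cube c r) ?_
  refine (Metric.isBounded_closedBall (x := c) (r := √n * r)).subset ?_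
  intro x hx
  rw [mem_closedBall, dist_eq_norm]
  exact norm_sub_le_of_mem_cube hr hx

/-! ### Geometry of the kernel -/

lemma geom (Ω : E n → ℂ) (hΩ : ContinuousOn Ω (sphere 0 1)) {u0 : E n}
    (hu0 : u0 ∈ sphere (0 : E n) 1) (h0 : Ω u0 ≠ 0) :
    ∃ M > (0 : ℝ), ∃ κ > (0 : ℝ), ∀ (c : E n) (r : ℝ), 0 < r → ∀ x ∈ cube c r,
      ∀ y ∈ cube (c - (M * r) • u0) r, r ≤ ‖x - y‖ ∧
        κ * ‖Ω u0‖ / (2 * r) ^ n ≤ (conj (Ω u0) * kernel Ω (x - y)).re := by
  have hn0 : 0 < ‖Ω u0‖ := norm_pos_iff.2 h0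
  have hu0n : ‖u0‖ = 1 := by simpa using hu0
  have hcont := Metric.continuousOn_iff.1 hΩ u0 hu0 (‖Ω u0‖ / 2) (by positivity)
  obtain ⟨η, hη, hη'⟩ := hcont
  set a : ℝ := 2 * √n with ha
  have ha0 : 0 ≤ a := by positivity
  set M : ℝ := a + 2 * a / η + 1 with hM
  have hMa : 1 ≤ M - a := by
    have : 0 ≤ 2 * a / η := by positivity
    rw [hM]; linarith
  have hM0 : 0 < M := by linarith
  refine ⟨M, hM0, ‖Ω u0‖ / 2 * (2 / (M + a)) ^ n, by positivity, ?_⟩
  intro c r hr x hx y hy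
  obtain ⟨w, hw⟩ : ∃ w, w = x - y := ⟨_, rfl⟩
  rw [← hw]
  have hw1 : ‖w - (M * r) • u0‖ ≤ a * r := by
    have e : w - (M * r) • u0 = (x - c) - (y - (c - (M * r) • u0)) := by
      rw [hw]; abel
    rw [e]
    refine (norm_sub_le _ _).trans ?_
    have h1 := norm_sub_le_of_mem_cube hr.le hx
    have h2 := norm_sub_le_of_mem_cube hr.le hy
    rw [ha]; linarith
  have hMr : ‖(M * r) • u0‖ = M * r := by
    rw [norm_smul, hu0n, mul_one, Real.norm_eq_abs, abs_of_pos (by positivity)]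
  have hlow : (M - a) * r ≤ ‖w‖ := by
    have := norm_sub_norm_le ((M * r) • u0) w
    rw [norm_sub_rev ((M * r) • u0) w, hMr] at this
    linarith
  have hup : ‖w‖ ≤ (M + a) * r := by
    have := norm_sub_norm_le w ((M * r) • u0)
    rw [hMr] at this
    linarith
  have hwr : r ≤ ‖w‖ := by nlinarith
  have hwpos : 0 < ‖w‖ := by linarith
  refine ⟨hwr, ?_⟩
  set u := ‖w‖⁻¹ • w with hu
  have hun : ‖u‖ = 1 := by
    rw [hu, norm_smul, norm_inv, norm_norm, inv_mul_cancel₀ hwpos.ne']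
  have hus : u ∈ sphere (0 : E n) 1 := by simpa using hun
  have hdist : dist u u0 < η := by
    rw [dist_eq_norm]
    have e : u - u0 = ‖w‖⁻¹ • ((w - (M * r) • u0) + (M * r - ‖w‖) • u0) := by
      have e1 : (w - (M * r) • u0) + (M * r - ‖w‖) • u0 = w - ‖w‖ • u0 := by
        rw [sub_smul]; abel
      rw [e1, smul_sub, smul_smul, inv_mul_cancel₀ hwpos.ne', one_smul]
    rw [e, norm_smul, norm_inv, norm_norm]
    have h1 : ‖(w - (M * r) • u0) + (M * r - ‖w‖) • u0‖ ≤ 2 * (a * r) := by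
      refine (norm_add_le _ _).trans ?_
      have h2 : ‖(M * r - ‖w‖) • u0‖ ≤ a * r := by
        rw [norm_smul, hu0n, mul_one, Real.norm_eq_abs, abs_le]
        constructor <;> linarith
      linarith
    calc ‖w‖⁻¹ * ‖(w - (M * r) • u0) + (M * r - ‖w‖) • u0‖
        ≤ ‖w‖⁻¹ * (2 * (a * r)) := by gcongr
      _ ≤ ((M - a) * r)⁻¹ * (2 * (a * r)) := by
          gcongr
      _ = 2 * a / (M - a) := by
          field_simp
      _ < η := by
          rw [div_lt_iff₀ (by linarith)]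
          have : η * (M - a) = 2 * a + η := by
            rw [hM]; field_simp; ring
          linarith
  have hclose := hη' u hus hdist
  have hre : ‖Ω u0‖ ^ 2 / 2 ≤ (conj (Ω u0) * Ω u).re := by
    have e : conj (Ω u0) * Ω u = conj (Ω u0) * Ω u0 + conj (Ω u0) * (Ω u - Ω u0) := by ring
    rw [e, Complex.add_re]
    have e1 : (conj (Ω u0) * Ω u0).re = ‖Ω u0‖ ^ 2 := by
      rw [mul_comm, Complex.mul_conj, Complex.normSq_eq_norm_sq]
      norm_cast
    have e2 : |(conj (Ω u0) * (Ω u - Ω u0)).re| ≤ ‖Ω u0‖ * (‖Ω u0‖ / 2) := by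
      refine (Complex.abs_re_le_norm _).trans ?_
      rw [norm_mul, RCLike.norm_conj]
      rw [dist_eq_norm] at hclose
      gcongr
    rw [e1]
    have := (abs_le.1 e2).1
    nlinarith
  have hker : (conj (Ω u0) * kernel Ω w).re = (conj (Ω u0) * Ω u).re / ‖w‖ ^ n := by
    unfold kernel
    rw [← hu, ← mul_div_assoc, ← Complex.ofReal_pow, Complex.div_ofReal_re]
  rw [hker]
  have hpw : ‖w‖ ^ n ≤ ((M + a) * r) ^ n := pow_le_pow_left₀ hwpos.le hup n
  calc ‖Ω u0‖ / 2 * (2 / (M + a)) ^ n * ‖Ω u0‖ / (2 * r) ^ n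
      = (‖Ω u0‖ ^ 2 / 2) / ((M + a) * r) ^ n := by
        rw [div_pow, mul_pow, mul_pow]
        have : (M + a) ≠ 0 := by positivity
        field_simp
    _ ≤ (‖Ω u0‖ ^ 2 / 2) / ‖w‖ ^ n := by gcongr
    _ ≤ _ := by gcongr

/-! ### The operator away from the support -/

lemma singInt_off (Ω : E n → ℂ) (f : E n → ℂ) (x : E n) {ρ : ℝ} (hρ : 0 < ρ)
    (hf : ∀ y, f y ≠ 0 → ρ ≤ ‖x - y‖) :
    singInt Ω f x = ∫ y, kernel Ω (x - y) * f y := by
  unfold singInt
  refine Tendsto.limUnder_eq ?_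
  refine (tendsto_congr' ?_).2 tendsto_const_nhds
  have : Ioo (0 : ℝ) ρ ∈ 𝓝[>] (0 : ℝ) := Ioo_mem_nhdsGT hρ
  filter_upwards [this] with ε hε
  refine setIntegral_eq_integral_of_forall_compl_eq_zero ?_
  intro y hy
  have : f y = 0 := by
    by_contra hne
    have h1 := hf y hne
    simp only [mem_ofPred_eq, not_lt] at hy
    linarith [hε.2]
  rw [this, mul_zero]

lemma continuousOn_kernel {Ω : E n → ℂ} (hΩ : ContinuousOn Ω (sphere 0 1)) (x : E n) :
    ContinuousOn (fun y => kernel Ω (x - y)) {y | x - y ≠ 0} := by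
  unfold kernel
  have h1 : ContinuousOn (fun y : E n => x - y) {y | x - y ≠ 0} := by fun_prop
  have h2 : ContinuousOn (fun y : E n => ‖x - y‖⁻¹ • (x - y)) {y | x - y ≠ 0} := by
    have h3 : ContinuousOn (fun y : E n => ‖x - y‖⁻¹) {y | x - y ≠ 0} := by
      refine ContinuousOn.inv₀ (by fun_prop) ?_
      intro y hy
      exact norm_ne_zero_iff.2 hy
    exact h3.smul h1
  refine ContinuousOn.div ?_ ?_ ?_
  · refine hΩ.comp h2 ?_
    intro y hy
    simp only [mem_sphere_iff_norm, sub_zero, norm_smul, norm_inv, norm_norm]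
    exact inv_mul_cancel₀ (norm_ne_zero_iff.2 hy)
  · fun_prop
  · intro y hy
    have : (‖x - y‖ : ℂ) ≠ 0 := by
      exact_mod_cast norm_ne_zero_iff.2 hy
    exact pow_ne_zero _ this

lemma kernel_bound {Ω : E n → ℂ} (hΩ : ContinuousOn Ω (sphere 0 1)) :
    ∃ C : ℝ, 0 ≤ C ∧ ∀ (z : E n) (r : ℝ), 0 < r → r ≤ ‖z‖ → ‖kernel Ω z‖ ≤ C / r ^ n := by
  obtain ⟨C, hC⟩ := (isCompact_sphere (0 : E n) 1).exists_bound_of_continuousOn hΩ
  refine ⟨max C 0, le_max_right _ _, ?_⟩
  intro z r hr hz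
  have hz0 : 0 < ‖z‖ := by linarith
  unfold kernel
  rw [norm_div, norm_pow, Complex.norm_real, norm_norm]
  have h1 : ‖Ω (‖z‖⁻¹ • z)‖ ≤ max C 0 := by
    refine (hC _ ?_).trans (le_max_left _ _)
    simp only [mem_sphere_iff_norm, sub_zero, norm_smul, norm_inv, norm_norm]
    exact inv_mul_cancel₀ hz0.ne'
  gcongr

/-- the pointwise lower bound for `(K - K_β) 1_F` away from `F` -/
lemma pointwise_lower {Ω : E n → ℂ} (hΩ : ContinuousOn Ω (sphere 0 1)) {w0 : ℂ} (hw0 : w0 ≠ 0)
    {β : E n → ℝ} (hβ : AEStronglyMeasurable β volume) {F : Set (E n)} (hF : MeasurableSet F)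
    (hFfin : volume F ≠ ⊤) {N : ℝ} (hN : ∀ y ∈ F, β y ≤ N) {x : E n} {r a g : ℝ} (hr : 0 < r)
    (ha : 0 ≤ a) (hg : 0 ≤ g)
    (hker : ∀ y ∈ F, r ≤ ‖x - y‖ ∧ a * ‖w0‖ ≤ (conj w0 * kernel Ω (x - y)).re)
    (hsign : (∀ y ∈ F, g ≤ 1 - Real.exp (β y - β x)) ∨ (∀ y ∈ F, g ≤ Real.exp (β y - β x) - 1)) :
    a * g * volume.real F ≤
      ‖singInt Ω (F.indicator fun _ => (1 : ℂ)) x -
        conjInt Ω β (F.indicator fun _ => (1 : ℂ)) x‖ := by
  obtain ⟨C, hC0, hC⟩ := kernel_bound hΩ
  have hw0n : 0 < ‖w0‖ := norm_pos_iff.2 hw0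
  have hsupp : ∀ y, F.indicator (fun _ => (1 : ℂ)) y ≠ 0 → y ∈ F := by
    intro y hy
    by_contra h
    exact hy (indicator_of_notMem h _)
  -- integrability
  have hmeasK : AEStronglyMeasurable (fun y => kernel Ω (x - y)) (volume.restrict F) := by
    have h1 : ContinuousOn (fun y => kernel Ω (x - y)) F := by
      refine (continuousOn_kernel hΩ x).mono ?_
      intro y hy
      have := (hker y hy).1
      have : 0 < ‖x - y‖ := by linarith
      exact norm_pos_iff.1 this
    exact h1.aestronglyMeasurable hF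
  have hmeasE : AEStronglyMeasurable (fun y => (Real.exp (β y) : ℂ)) (volume.restrict F) :=
    (Complex.continuous_ofReal.comp Real.continuous_exp).comp_aestronglyMeasurable hβ.restrict
  have hintK : IntegrableOn (fun y => kernel Ω (x - y)) F volume := by
    refine IntegrableOn.of_bound hFfin.lt_top hmeasK (C / r ^ n) ?_
    rw [ae_restrict_iff' hF]
    refine Eventually.of_forall ?_
    intro y hy
    exact hC _ r hr (hker y hy).1
  have hintKE : IntegrableOn (fun y => kernel Ω (x - y) * (Real.exp (β y) : ℂ)) F volume := by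
    refine IntegrableOn.of_bound hFfin.lt_top (hmeasK.mul hmeasE) (C / r ^ n * Real.exp N) ?_
    rw [ae_restrict_iff' hF]
    refine Eventually.of_forall ?_
    intro y hy
    rw [norm_mul, Complex.norm_real, Real.norm_eq_abs, abs_of_pos (Real.exp_pos _)]
    have h1 := hC _ r hr (hker y hy).1
    have h2 := Real.exp_le_exp.2 (hN y hy)
    have h3 := Real.exp_pos (β y)
    exact mul_le_mul h1 h2 h3.le (by positivity)
  have hintD : IntegrableOn (fun y => kernel Ω (x - y) * ((1 - Real.exp (β y - β x) : ℝ) : ℂ))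
      F volume := by
    have h1 : (fun y => kernel Ω (x - y) * ((1 - Real.exp (β y - β x) : ℝ) : ℂ)) =
        fun y => kernel Ω (x - y) -
          (Real.exp (-β x) : ℂ) * (kernel Ω (x - y) * (Real.exp (β y) : ℂ)) := by
      funext y
      rw [sub_eq_add_neg (β y), Real.exp_add]
      push_cast
      ring
    rw [h1]
    exact hintK.sub (hintKE.const_mul _)
  -- the formula
  have hformula : singInt Ω (F.indicator fun _ => (1 : ℂ)) x -
      conjInt Ω β (F.indicator fun _ => (1 : ℂ)) x =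
      ∫ y in F, kernel Ω (x - y) * ((1 - Real.exp (β y - β x) : ℝ) : ℂ) := by
    unfold conjInt
    rw [singInt_off Ω _ x hr (fun y hy => (hker y (hsupp y hy)).1),
      singInt_off Ω (fun y => (Real.exp (β y) : ℂ) * F.indicator (fun _ => (1 : ℂ)) y) x hr
        (fun y hy => (hker y (hsupp y (right_ne_zero_of_mul hy))).1)]
    have e1 : (fun y => kernel Ω (x - y) * F.indicator (fun _ => (1 : ℂ)) y) =
        F.indicator (fun y => kernel Ω (x - y)) := by
      funext y
      by_cases hy : y ∈ F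
      · simp [indicator_of_mem hy]
      · simp [indicator_of_notMem hy]
    have e2 : (fun y => kernel Ω (x - y) *
        ((Real.exp (β y) : ℂ) * F.indicator (fun _ => (1 : ℂ)) y)) =
        F.indicator (fun y => kernel Ω (x - y) * (Real.exp (β y) : ℂ)) := by
      funext y
      by_cases hy : y ∈ F
      · simp [indicator_of_mem hy]
      · simp [indicator_of_notMem hy]
    rw [e1, e2, integral_indicator hF, integral_indicator hF, ← integral_const_mul,
      ← integral_sub hintK (hintKE.const_mul _)]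
    refine integral_congr_ae (Eventually.of_forall ?_)
    intro y
    simp only
    rw [sub_eq_add_neg (β y), Real.exp_add]
    push_cast
    ring
  -- real part
  have hre : (conj w0 * ∫ y in F, kernel Ω (x - y) * ((1 - Real.exp (β y - β x) : ℝ) : ℂ)).re =
      ∫ y in F, (conj w0 * kernel Ω (x - y)).re * (1 - Real.exp (β y - β x)) := by
    rw [← integral_const_mul]
    have h1 := integral_re (hintD.const_mul (conj w0))
    simp only [RCLike.re_to_complex] at h1
    rw [← h1]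
    refine integral_congr_ae (Eventually.of_forall ?_)
    intro y
    simp only
    rw [← mul_assoc, Complex.re_mul_ofReal]
  have hintR : IntegrableOn
      (fun y => (conj w0 * kernel Ω (x - y)).re * (1 - Real.exp (β y - β x))) F volume := by
    have h1 := (hintD.const_mul (conj w0)).re
    simp only [RCLike.re_to_complex] at h1
    refine h1.congr (Eventually.of_forall ?_)
    intro y
    simp only
    rw [← mul_assoc, Complex.re_mul_ofReal]
  have hconst : IntegrableOn (fun _ : E n => a * ‖w0‖ * g) F volume :=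
    integrableOn_const hFfin
  have hval : ∫ _ in F, a * ‖w0‖ * g = ‖w0‖ * (a * g * volume.real F) := by
    rw [setIntegral_const, smul_eq_mul]; ring
  have hkey : ‖w0‖ * (a * g * volume.real F) ≤
      |∫ y in F, (conj w0 * kernel Ω (x - y)).re * (1 - Real.exp (β y - β x))| := by
    rcases hsign with h | h
    · refine le_trans ?_ (le_abs_self _)
      rw [← hval]
      refine setIntegral_mono_on hconst hintR hF ?_
      intro y hy
      exact mul_le_mul (hker y hy).2 (h y hy) hg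
        ((by positivity : 0 ≤ a * ‖w0‖).trans (hker y hy).2)
    · refine le_trans ?_ (neg_le_abs _)
      rw [← hval, ← integral_neg]
      refine setIntegral_mono_on hconst hintR.neg hF ?_
      intro y hy
      have := mul_le_mul (hker y hy).2 (h y hy) hg
        ((by positivity : 0 ≤ a * ‖w0‖).trans (hker y hy).2)
      linarith
  rw [hformula]
  rw [← hre] at hkey
  have h2 := hkey.trans (Complex.abs_re_le_norm _)
  rw [norm_mul, RCLike.norm_conj] at h2
  exact le_of_mul_le_mul_left h2 hw0n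

/-! ### The `L²` step -/

lemma l2_step {Ω : E n → ℂ} {β : E n → ℝ} {δ : ℝ} (hδ : 0 ≤ δ)
    (hD : diffNorm Ω β ≤ ENNReal.ofReal δ) {F K : Set (E n)} (hF : MeasurableSet F)
    (hK : IsCompact K) (hFK : F ⊆ K) (hF0 : volume F ≠ 0) {N : ℝ} (hN : ∀ y ∈ F, β y ≤ N)
    {A : Set (E n)} (hA : NullMeasurableSet A volume) {G : ℝ} (hG : 0 ≤ G)
    (hlow : ∀ x ∈ A, G ≤ ‖singInt Ω (F.indicator fun _ => (1 : ℂ)) x -
        conjInt Ω β (F.indicator fun _ => (1 : ℂ)) x‖) :
    G ^ 2 * volume.real A ≤ δ ^ 2 * volume.real F := by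
  have hFfin : volume F ≠ ⊤ := ne_top_of_le_ne_top hK.measure_lt_top.ne (measure_mono hFK)
  have htest : IsTest β (F.indicator fun _ => (1 : ℂ)) := by
    refine ⟨measurable_const.indicator hF, ?_, ⟨1, ?_⟩, ⟨Real.exp N, ?_⟩⟩
    · refine HasCompactSupport.intro hK ?_
      intro x hx
      exact indicator_of_notMem (fun h => hx (hFK h)) _
    · intro x
      by_cases hx : x ∈ F
      · simp [indicator_of_mem hx]
      · simp [indicator_of_notMem hx]
    · intro x
      by_cases hx : x ∈ F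
      · rw [indicator_of_mem hx, mul_one, Complex.norm_real, Real.norm_eq_abs,
          abs_of_pos (Real.exp_pos _)]
        exact Real.exp_le_exp.2 (hN x hx)
      · rw [indicator_of_notMem hx, mul_zero, norm_zero]
        exact (Real.exp_pos _).le
  set f : E n → ℂ := F.indicator fun _ => (1 : ℂ) with hf
  have h1 : eLpNorm (fun x => singInt Ω f x - conjInt Ω β f x) 2 volume / eLpNorm f 2 volume ≤
      ENNReal.ofReal δ := by
    refine le_trans ?_ hD
    unfold diffNorm
    exact le_iSup₂ (f := fun (f : E n → ℂ) (_ : IsTest β f) =>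
      eLpNorm (fun x => singInt Ω f x - conjInt Ω β f x) 2 volume / eLpNorm f 2 volume) f htest
  have hfn : eLpNorm f 2 volume = volume F ^ (1 / 2 : ℝ) := by
    rw [hf, eLpNorm_indicator_const₀ hF.nullMeasurableSet (by norm_num) (by norm_num)]
    simp
  have hfn0 : eLpNorm f 2 volume ≠ 0 := by
    rw [hfn]
    simp [hF0, hFfin]
  have hfnt : eLpNorm f 2 volume ≠ ⊤ := by
    rw [hfn]
    exact ENNReal.rpow_ne_top_of_nonneg (by norm_num) hFfin
  rw [ENNReal.div_le_iff hfn0 hfnt, hfn] at h1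
  have h2 : ENNReal.ofReal G * volume A ^ (1 / 2 : ℝ) ≤
      eLpNorm (fun x => singInt Ω f x - conjInt Ω β f x) 2 volume := by
    calc ENNReal.ofReal G * volume A ^ (1 / 2 : ℝ)
        = eLpNorm (A.indicator fun _ => G) 2 volume := by
          rw [eLpNorm_indicator_const₀ hA (by norm_num) (by norm_num), Real.enorm_eq_ofReal hG]
          simp
      _ ≤ _ := by
          refine eLpNorm_mono ?_
          intro x
          by_cases hx : x ∈ A
          · rw [indicator_of_mem hx, Real.norm_eq_abs, abs_of_nonneg hG]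
            exact hlow x hx
          · rw [indicator_of_notMem hx, norm_zero]
            exact norm_nonneg _
  have h3 := h2.trans h1
  have h4 : (ENNReal.ofReal G * volume A ^ (1 / 2 : ℝ)) ^ 2 ≤
      (ENNReal.ofReal δ * volume F ^ (1 / 2 : ℝ)) ^ 2 := by gcongr
  have hsq : ∀ t : ℝ≥0∞, (t ^ (1 / 2 : ℝ)) ^ 2 = t := by
    intro t
    rw [← ENNReal.rpow_natCast, ← ENNReal.rpow_mul]
    norm_num
  rw [mul_pow, mul_pow, hsq, hsq] at h4
  have h5 := ENNReal.toReal_mono (by
    exact ENNReal.mul_ne_top (ENNReal.pow_ne_top ENNReal.ofReal_ne_top) hFfin) h4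
  rw [ENNReal.toReal_mul, ENNReal.toReal_mul, ENNReal.toReal_pow, ENNReal.toReal_pow,
    ENNReal.toReal_ofReal hG, ENNReal.toReal_ofReal hδ] at h5
  exact h5

/-! ### Medians -/

lemma exists_median {α : Type*} [MeasurableSpace α] (μ : Measure α) [IsFiniteMeasure μ]
    {f : α → ℝ} (hf : AEMeasurable f μ) :
    ∃ m : ℝ, μ univ / 2 ≤ μ {x | m ≤ f x} ∧ μ univ / 2 ≤ μ {x | f x ≤ m} := by
  by_cases h0 : μ univ = 0
  · exact ⟨0, by simp [h0]⟩
  have hhalf : μ univ / 2 < μ univ := ENNReal.half_lt_self h0 (measure_ne_top _ _)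
  have hhalf0 : 0 < μ univ / 2 := ENNReal.half_pos h0
  have hnm : ∀ t : ℝ, NullMeasurableSet {x | f x < t} μ := fun t =>
    nullMeasurableSet_lt hf aemeasurable_const
  set S : Set ℝ := {t | μ {x | f x < t} ≤ μ univ / 2} with hS
  have hmono : ∀ {s t : ℝ}, s ≤ t → μ {x | f x < s} ≤ μ {x | f x < t} := by
    intro s t hst
    exact measure_mono fun x hx => lt_of_lt_of_le hx hst
  have hne : S.Nonempty := by
    have h1 : Tendsto (fun k : ℕ => μ {x | f x < -(k : ℝ)}) atTop
        (𝓝 (μ (⋂ k : ℕ, {x | f x < -(k : ℝ)}))) := by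
      refine tendsto_measure_iInter_atTop (fun k => hnm _) ?_ ⟨0, measure_ne_top _ _⟩
      intro i j hij x hx
      have h3 : f x < -(j : ℝ) := hx
      have h4 : (i : ℝ) ≤ j := by exact_mod_cast hij
      show f x < -(i : ℝ)
      linarith
    have h2 : (⋂ k : ℕ, {x | f x < -(k : ℝ)}) = ∅ := by
      ext x
      simp only [mem_iInter, mem_ofPred_eq, mem_empty_iff_false, iff_false, not_forall, not_lt]
      obtain ⟨k, hk⟩ := exists_nat_ge (-f x)
      exact ⟨k, by linarith⟩
    rw [h2, measure_empty] at h1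
    obtain ⟨k, hk⟩ := (h1.eventually (gt_mem_nhds hhalf0)).exists
    exact ⟨-(k : ℝ), hk.le⟩
  have hbdd : BddAbove S := by
    have h1 : Tendsto (fun k : ℕ => μ {x | f x < (k : ℝ)}) atTop
        (𝓝 (μ (⋃ k : ℕ, {x | f x < (k : ℝ)}))) := by
      refine tendsto_measure_iUnion_atTop ?_
      intro i j hij x hx
      have h3 : f x < (i : ℝ) := hx
      have h4 : (i : ℝ) ≤ j := by exact_mod_cast hij
      show f x < (j : ℝ)
      linarith
    have h2 : (⋃ k : ℕ, {x | f x < (k : ℝ)}) = univ := by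
      ext x
      simp only [mem_iUnion, mem_ofPred_eq, mem_univ, iff_true]
      exact exists_nat_gt (f x)
    rw [h2] at h1
    obtain ⟨k, hk⟩ := (h1.eventually (lt_mem_nhds hhalf)).exists
    refine ⟨k, ?_⟩
    intro t ht
    by_contra hcon
    push Not at hcon
    have h5 := (hmono hcon.le).trans ht
    exact absurd h5 (not_le.2 hk)
  set m := sSup S with hm
  refine ⟨m, ?_, ?_⟩
  · have h1 : μ {x | f x < m} ≤ μ univ / 2 := by
      have h2 : {x | f x < m} = ⋃ k : ℕ, {x | f x < m - 1 / ((k : ℝ) + 1)} := by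
        ext x
        simp only [mem_iUnion, mem_ofPred_eq]
        constructor
        · intro hx
          obtain ⟨k, hk⟩ := exists_nat_one_div_lt (sub_pos.2 hx)
          exact ⟨k, by linarith⟩
        · rintro ⟨k, hk⟩
          have : 0 < 1 / ((k : ℝ) + 1) := by positivity
          linarith
      rw [h2, Monotone.measure_iUnion]
      · refine iSup_le fun k => ?_
        have h3 : m - 1 / ((k : ℝ) + 1) < m := by
          have : 0 < 1 / ((k : ℝ) + 1) := by positivity
          linarith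
        obtain ⟨t, ht, htk⟩ := exists_lt_of_lt_csSup hne h3
        exact (hmono htk.le).trans ht
      · intro i j hij x hx
        have h3 : f x < m - 1 / ((i : ℝ) + 1) := hx
        have h4 : 1 / ((j : ℝ) + 1) ≤ 1 / ((i : ℝ) + 1) := by
          have : (i : ℝ) ≤ j := by exact_mod_cast hij
          gcongr
        show f x < m - 1 / ((j : ℝ) + 1)
        linarith
    have h2 : {x | m ≤ f x} = {x | f x < m}ᶜ := by
      ext x; simp
    rw [h2, measure_compl₀ (hnm m) (measure_ne_top _ _)]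
    rw [ENNReal.le_sub_iff_add_le_right (measure_ne_top _ _) (measure_mono (subset_univ _))]
    calc μ univ / 2 + μ {x | f x < m} ≤ μ univ / 2 + μ univ / 2 := by gcongr
      _ = μ univ := ENNReal.add_halves _
  · have h2 : {x | f x ≤ m} = ⋂ k : ℕ, {x | f x < m + 1 / ((k : ℝ) + 1)} := by
      ext x
      simp only [mem_iInter, mem_ofPred_eq]
      constructor
      · intro hx k
        have : 0 < 1 / ((k : ℝ) + 1) := by positivity
        linarith
      · intro hx
        by_contra hcon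
        push Not at hcon
        obtain ⟨k, hk⟩ := exists_nat_one_div_lt (sub_pos.2 hcon)
        have := hx k
        linarith
    rw [h2, Antitone.measure_iInter]
    · refine le_iInf fun k => ?_
      by_contra hcon
      push Not at hcon
      have h3 : m + 1 / ((k : ℝ) + 1) ∈ S := hcon.le
      have h4 := le_csSup hbdd h3
      have : 0 < 1 / ((k : ℝ) + 1) := by positivity
      linarith
    · intro i j hij x hx
      have h3 : f x < m + 1 / ((j : ℝ) + 1) := hx
      have h4 : 1 / ((j : ℝ) + 1) ≤ 1 / ((i : ℝ) + 1) := by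
        have : (i : ℝ) ≤ j := by exact_mod_cast hij
        gcongr
      show f x < m + 1 / ((i : ℝ) + 1)
      linarith
    · exact fun k => hnm _
    · exact ⟨0, measure_ne_top _ _⟩

/-! ### The local oscillation estimate -/

lemma sub_estimate {Ω : E n → ℂ} (hΩ : ContinuousOn Ω (sphere 0 1)) {w0 : ℂ} (hw0 : w0 ≠ 0)
    {β : E n → ℝ} (hβ : AEStronglyMeasurable β volume) {δ : ℝ} (hδ : 0 ≤ δ)
    (hD : diffNorm Ω β ≤ ENNReal.ofReal δ) {r κ g V : ℝ} (hr : 0 < r) (hκ : 0 < κ) (hg : 0 < g)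
    (hV : 0 < V) {F0 K A : Set (E n)} (hF0 : NullMeasurableSet F0 volume) (hK : IsCompact K)
    (hFK : F0 ⊆ K) (hF0V : V / 3 ≤ volume.real F0) {N : ℝ} (hN : ∀ y ∈ F0, β y ≤ N)
    (hA : NullMeasurableSet A volume)
    (hker : ∀ x ∈ A, ∀ y ∈ F0, r ≤ ‖x - y‖ ∧
      κ * ‖w0‖ / V ≤ (conj w0 * kernel Ω (x - y)).re)
    (hsign : (∀ x ∈ A, ∀ y ∈ F0, g ≤ 1 - Real.exp (β y - β x)) ∨
      (∀ x ∈ A, ∀ y ∈ F0, g ≤ Real.exp (β y - β x) - 1)) :
    volume.real A ≤ 3 * δ ^ 2 / (κ ^ 2 * g ^ 2) * V := by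
  obtain ⟨F, hFF0, hFm, hFae⟩ := hF0.exists_measurable_subset_ae_eq
  have hFvol : volume F = volume F0 := measure_congr hFae
  have hFreal : volume.real F = volume.real F0 := by
    rw [measureReal_def, measureReal_def, hFvol]
  have hFpos : 0 < volume.real F := by rw [hFreal]; linarith [div_pos hV (by norm_num : (0:ℝ) < 3)]
  have hFfin : volume F ≠ ⊤ := by
    rw [hFvol]; exact ne_top_of_le_ne_top hK.measure_lt_top.ne (measure_mono hFK)
  have hFne : volume F ≠ 0 := by
    intro h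
    rw [measureReal_def, h] at hFpos
    simp at hFpos
  have hlow : ∀ x ∈ A, κ / V * g * volume.real F ≤
      ‖singInt Ω (F.indicator fun _ => (1 : ℂ)) x -
        conjInt Ω β (F.indicator fun _ => (1 : ℂ)) x‖ := by
    intro x hx
    refine pointwise_lower hΩ hw0 hβ hFm hFfin (fun y hy => hN y (hFF0 hy)) hr
      (by positivity) hg.le ?_ ?_
    · intro y hy
      refine ⟨(hker x hx y (hFF0 hy)).1, ?_⟩
      have := (hker x hx y (hFF0 hy)).2
      calc κ / V * ‖w0‖ = κ * ‖w0‖ / V := by ring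
        _ ≤ _ := this
    · rcases hsign with h | h
      · exact Or.inl fun y hy => h x hx y (hFF0 hy)
      · exact Or.inr fun y hy => h x hx y (hFF0 hy)
  have h1 := l2_step hδ hD hFm hK (hFF0.trans hFK) hFne (fun y hy => hN y (hFF0 hy)) hA
    (G := κ / V * g * volume.real F) (by positivity) hlow
  set a := volume.real A with ha
  set f := volume.real F with hf
  have ha0 : 0 ≤ a := measureReal_nonneg
  have h2 : (κ / V * g) ^ 2 * f * a ≤ δ ^ 2 := by
    have : ((κ / V * g) ^ 2 * f * a) * f ≤ δ ^ 2 * f := by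
      calc ((κ / V * g) ^ 2 * f * a) * f = (κ / V * g * f) ^ 2 * a := by ring
        _ ≤ _ := h1
    exact le_of_mul_le_mul_right this hFpos
  have h3 : (κ / V * g) ^ 2 * (V / 3) * a ≤ δ ^ 2 := by
    refine le_trans ?_ h2
    have : V / 3 ≤ f := by rw [hFreal]; exact hF0V
    gcongr
  have h4 : κ ^ 2 * g ^ 2 * a ≤ 3 * δ ^ 2 * V := by
    have e : (κ / V * g) ^ 2 * (V / 3) * a = κ ^ 2 * g ^ 2 * a / (3 * V) := by
      field_simp
    rw [e, div_le_iff₀ (by positivity)] at h3
    linarith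
  have hp : 0 < κ ^ 2 * g ^ 2 := by positivity
  calc a = κ ^ 2 * g ^ 2 * a / (κ ^ 2 * g ^ 2) := by field_simp
    _ ≤ 3 * δ ^ 2 * V / (κ ^ 2 * g ^ 2) := by gcongr
    _ = _ := by ring

lemma oscillation {Ω : E n → ℂ} (hΩ : ContinuousOn Ω (sphere 0 1)) {u0 : E n}
    (hu0 : u0 ∈ sphere (0 : E n) 1) (h0 : Ω u0 ≠ 0) :
    ∃ κ > (0 : ℝ), ∀ β : E n → ℝ, LocallyIntegrable β volume → ∀ δ : ℝ, 0 ≤ δ →
      diffNorm Ω β ≤ ENNReal.ofReal δ → ∀ (c : E n) (r : ℝ), 0 < r → ∃ m : ℝ, ∀ s : ℝ, 0 < s →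
        volume {x ∈ cube c r | s < |β x - m|} ≤
          ENNReal.ofReal (6 * δ ^ 2 / (κ ^ 2 * (1 - Real.exp (-s)) ^ 2)) * volume (cube c r) := by
  obtain ⟨M, hM, κ, hκ, hgeom⟩ := geom Ω hΩ hu0 h0
  refine ⟨κ, hκ, ?_⟩
  intro β hβ δ hδ hD c r hr
  have hβm : AEStronglyMeasurable β volume := hβ.aestronglyMeasurable
  set c' := c - (M * r) • u0 with hc'
  set V : ℝ := (2 * r) ^ n with hV
  have hVpos : 0 < V := by positivity
  have hVc : volume (cube c r) = ENNReal.ofReal V := volume_cube c hr.le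
  have hVc' : volume (cube c' r) = ENNReal.ofReal V := volume_cube c' hr.le
  have hcm : MeasurableSet (cube c r) := (isClosed_cube c r).measurableSet
  have hcm' : MeasurableSet (cube c' r) := (isClosed_cube c' r).measurableSet
  have hfin' : IsFiniteMeasure (volume.restrict (cube c' r)) :=
    ⟨by rw [Measure.restrict_apply_univ, hVc']; exact ENNReal.ofReal_lt_top⟩
  obtain ⟨m, hm1, hm2⟩ := exists_median (volume.restrict (cube c' r))
    (hβm.aemeasurable.restrict)
  rw [Measure.restrict_apply_univ, hVc'] at hm1 hm2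
  rw [Measure.restrict_apply' hcm'] at hm1 hm2
  have hhalf : ENNReal.ofReal V / 2 = ENNReal.ofReal (V / 2) := by
    rw [ENNReal.ofReal_div_of_pos (by norm_num)]; simp
  rw [hhalf] at hm1 hm2
  have hnle : ∀ t : ℝ, NullMeasurableSet {x | β x ≤ t} volume := fun t =>
    nullMeasurableSet_le hβm.aemeasurable aemeasurable_const
  have hnge : ∀ t : ℝ, NullMeasurableSet {x | t ≤ β x} volume := fun t =>
    nullMeasurableSet_le aemeasurable_const hβm.aemeasurable
  have hnlt : ∀ t : ℝ, NullMeasurableSet {x | β x < t} volume := fun t =>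
    nullMeasurableSet_lt hβm.aemeasurable aemeasurable_const
  have hngt : ∀ t : ℝ, NullMeasurableSet {x | t < β x} volume := fun t =>
    nullMeasurableSet_lt aemeasurable_const hβm.aemeasurable
  refine ⟨m, ?_⟩
  intro s hs
  set g : ℝ := 1 - Real.exp (-s) with hg
  have hgpos : 0 < g := by
    rw [hg, sub_pos, Real.exp_lt_one_iff]; linarith
  have hker : ∀ x ∈ cube c r, ∀ y ∈ cube c' r, r ≤ ‖x - y‖ ∧
      κ * ‖Ω u0‖ / V ≤ (conj (Ω u0) * kernel Ω (x - y)).re := fun x hx y hy => hgeom c r hr x hx y hy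
  -- upper part
  have hup : volume.real ({x | m + s < β x} ∩ cube c r) ≤ 3 * δ ^ 2 / (κ ^ 2 * g ^ 2) * V := by
    refine sub_estimate hΩ h0 hβm hδ hD hr hκ hgpos hVpos
      (F0 := {x | β x ≤ m} ∩ cube c' r) (K := cube c' r) (N := m)
      ((hnle m).inter hcm'.nullMeasurableSet) (isCompact_cube c' hr.le) inter_subset_right ?_
      (fun y hy => hy.1) ((hngt _).inter hcm.nullMeasurableSet)
      (fun x hx y hy => hker x hx.2 y hy.2) (Or.inl ?_)
    · have h1 : V / 2 ≤ volume.real ({x | β x ≤ m} ∩ cube c' r) := by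
        rw [measureReal_def]
        refine (ENNReal.ofReal_le_iff_le_toReal ?_).1 hm2
        exact ne_top_of_le_ne_top (by rw [hVc']; exact ENNReal.ofReal_ne_top)
          (measure_mono inter_subset_right)
      linarith
    · intro x hx y hy
      have h1 : m + s < β x := hx.1
      have h2 : β y ≤ m := hy.1
      have h3 : Real.exp (β y - β x) ≤ Real.exp (-s) := Real.exp_le_exp.2 (by linarith)
      linarith
  -- lower part
  have hlo : volume.real ({x | β x < m - s} ∩ cube c r) ≤ 3 * δ ^ 2 / (κ ^ 2 * g ^ 2) * V := by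
    -- truncation
    have htr : ∃ N : ℝ, V / 3 ≤ volume.real ({x | m ≤ β x} ∩ {x | β x ≤ N} ∩ cube c' r) := by
      have h1 : Tendsto (fun k : ℕ => volume ({x | m ≤ β x} ∩ {x | β x ≤ (k : ℝ)} ∩ cube c' r))
          atTop (𝓝 (volume (⋃ k : ℕ, {x | m ≤ β x} ∩ {x | β x ≤ (k : ℝ)} ∩ cube c' r))) := by
        refine tendsto_measure_iUnion_atTop ?_
        intro i j hij x hx
        have h3 : β x ≤ (i : ℝ) := hx.1.2
        have h4 : (i : ℝ) ≤ j := by exact_mod_cast hij
        exact ⟨⟨hx.1.1, h3.trans h4⟩, hx.2⟩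
      have h2 : (⋃ k : ℕ, {x | m ≤ β x} ∩ {x | β x ≤ (k : ℝ)} ∩ cube c' r) =
          {x | m ≤ β x} ∩ cube c' r := by
        ext x
        simp only [mem_iUnion, mem_inter_iff, mem_ofPred_eq]
        constructor
        · rintro ⟨k, h⟩
          exact ⟨h.1.1, h.2⟩
        · rintro ⟨h, h'⟩
          obtain ⟨k, hk⟩ := exists_nat_ge (β x)
          exact ⟨k, ⟨h, hk⟩, h'⟩
      rw [h2] at h1
      have h3 : ENNReal.ofReal (V / 3) < volume ({x | m ≤ β x} ∩ cube c' r) := by
        refine lt_of_lt_of_le ?_ hm1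
        rw [ENNReal.ofReal_lt_ofReal_iff (by positivity)]
        linarith
      obtain ⟨k, hk⟩ := (h1.eventually (lt_mem_nhds h3)).exists
      refine ⟨k, ?_⟩
      rw [measureReal_def]
      refine (ENNReal.ofReal_le_iff_le_toReal ?_).1 hk.le
      exact ne_top_of_le_ne_top (by rw [hVc']; exact ENNReal.ofReal_ne_top)
        (measure_mono inter_subset_right)
    obtain ⟨N, hN⟩ := htr
    refine sub_estimate hΩ h0 hβm hδ hD hr hκ hgpos hVpos
      (F0 := {x | m ≤ β x} ∩ {x | β x ≤ N} ∩ cube c' r) (K := cube c' r) (N := N)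
      (((hnge m).inter (hnle N)).inter hcm'.nullMeasurableSet) (isCompact_cube c' hr.le)
      inter_subset_right hN
      (fun y hy => hy.1.2) ((hnlt _).inter hcm.nullMeasurableSet)
      (fun x hx y hy => hker x hx.2 y hy.2) (Or.inr ?_)
    intro x hx y hy
    have h1 : β x < m - s := hx.1
    have h2 : m ≤ β y := hy.1.1
    have h3 : Real.exp s ≤ Real.exp (β y - β x) := Real.exp_le_exp.2 (by linarith)
    have h4 : Real.exp s * Real.exp (-s) = 1 := by rw [← Real.exp_add]; simp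
    have h5 : 1 < Real.exp s := by
      rw [Real.one_lt_exp_iff]; exact hs
    have h6 := Real.exp_pos (-s)
    nlinarith
  -- union
  have hsub : {x ∈ cube c r | s < |β x - m|} ⊆
      ({x | m + s < β x} ∩ cube c r) ∪ ({x | β x < m - s} ∩ cube c r) := by
    rintro x ⟨hx, hx2⟩
    rcases lt_abs.1 hx2 with h | h
    · exact Or.inl ⟨by show m + s < β x; linarith, hx⟩
    · exact Or.inr ⟨by show β x < m - s; linarith, hx⟩
  have hfinA : ∀ B : Set (E n), volume (B ∩ cube c r) ≠ ⊤ := fun B =>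
    ne_top_of_le_ne_top (by rw [hVc]; exact ENNReal.ofReal_ne_top) (measure_mono inter_subset_right)
  calc volume {x ∈ cube c r | s < |β x - m|}
      ≤ volume ({x | m + s < β x} ∩ cube c r) + volume ({x | β x < m - s} ∩ cube c r) :=
        (measure_mono hsub).trans (measure_union_le _ _)
    _ = ENNReal.ofReal (volume.real ({x | m + s < β x} ∩ cube c r)) +
        ENNReal.ofReal (volume.real ({x | β x < m - s} ∩ cube c r)) := by
        rw [ofReal_measureReal (hfinA _), ofReal_measureReal (hfinA _)]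
    _ ≤ ENNReal.ofReal (3 * δ ^ 2 / (κ ^ 2 * g ^ 2) * V) +
        ENNReal.ofReal (3 * δ ^ 2 / (κ ^ 2 * g ^ 2) * V) := by gcongr
    _ = ENNReal.ofReal (6 * δ ^ 2 / (κ ^ 2 * g ^ 2)) * volume (cube c r) := by
        rw [hVc, ← ENNReal.ofReal_add (by positivity) (by positivity),
          ← ENNReal.ofReal_mul (by positivity)]
        congr 1
        ring

/-! ### From local oscillation to the norm -/

lemma one_sub_exp_ge {s : ℝ} (h0 : 0 ≤ s) (h1 : s ≤ 1) : s / 2 ≤ 1 - Real.exp (-s) := by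
  have h2 : 1 + s ≤ Real.exp s := by linarith [Real.add_one_le_exp s]
  have h3 : Real.exp s * Real.exp (-s) = 1 := by rw [← Real.exp_add]; simp
  have h4 := Real.exp_pos (-s)
  have h5 : (1 + s) * Real.exp (-s) ≤ 1 := by
    calc (1 + s) * Real.exp (-s) ≤ Real.exp s * Real.exp (-s) := by gcongr
      _ = 1 := h3
  have h6 : Real.exp (-s) ≤ 1 - s / 2 := by
    by_contra hcon
    push Not at hcon
    have : (1 + s) * (1 - s / 2) < (1 + s) * Real.exp (-s) := by
      apply mul_lt_mul_of_pos_left hcon; linarith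
    nlinarith
  linarith

lemma average_bound {β : E n → ℝ} (hβ : LocallyIntegrable β volume) (c : E n) {r : ℝ}
    (hr : 0 < r) {m : ℝ} {T : ℝ≥0∞}
    (h : ∫⁻ x in cube c r, ‖β x - m‖ₑ ≤ T * volume (cube c r)) :
    ∫⁻ x in cube c r, ‖β x - ⨍ y in cube c r, β y‖ₑ ≤ 2 * T * volume (cube c r) := by
  set Q := cube c r with hQ
  have hvol : volume Q = ENNReal.ofReal ((2 * r) ^ n) := volume_cube c hr.le
  have hv0 : volume Q ≠ 0 := by
    rw [hvol]; simp only [ne_eq, ENNReal.ofReal_eq_zero, not_le]; positivity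
  have hvt : volume Q ≠ ⊤ := by rw [hvol]; exact ENNReal.ofReal_ne_top
  have hreal : 0 < volume.real Q := by
    rw [measureReal_def]; exact ENNReal.toReal_pos hv0 hvt
  have hint : IntegrableOn β Q volume := hβ.integrableOn_isCompact (isCompact_cube c hr.le)
  set av := ⨍ y in Q, β y with hav
  have h1 : volume.real Q • (av - m) = ∫ x in Q, (β x - m) := by
    rw [integral_sub hint (integrableOn_const hvt), setIntegral_const, hav, setAverage_eq,
      smul_sub, smul_smul, mul_inv_cancel₀ hreal.ne', one_smul]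
  have h2 : volume Q * ‖av - m‖ₑ ≤ ∫⁻ x in Q, ‖β x - m‖ₑ := by
    calc volume Q * ‖av - m‖ₑ = ‖volume.real Q • (av - m)‖ₑ := by
          rw [enorm_smul, Real.enorm_eq_ofReal hreal.le, ofReal_measureReal hvt]
      _ = ‖∫ x in Q, (β x - m)‖ₑ := by rw [h1]
      _ ≤ _ := enorm_integral_le_lintegral_enorm _
  calc ∫⁻ x in Q, ‖β x - av‖ₑ ≤ ∫⁻ x in Q, (‖β x - m‖ₑ + ‖av - m‖ₑ) := by
        refine lintegral_mono fun x => ?_
        calc ‖β x - av‖ₑ = ‖(β x - m) - (av - m)‖ₑ := by congr 1; ring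
          _ ≤ _ := enorm_sub_le
    _ = (∫⁻ x in Q, ‖β x - m‖ₑ) + ‖av - m‖ₑ * volume Q := by
        rw [lintegral_add_right _ measurable_const, setLIntegral_const]
    _ ≤ T * volume Q + T * volume Q := by
        refine add_le_add h ?_
        rw [mul_comm]
        exact h2.trans h
    _ = 2 * T * volume Q := by ring

lemma main_bound {Ω : E n → ℂ} (hΩ : ContinuousOn Ω (sphere 0 1))
    (h0 : ∃ u ∈ sphere (0 : E n) 1, Ω u ≠ 0) :
    ∃ C > (0 : ℝ), ∀ β : E n → ℝ, LocallyIntegrable β volume → bmoNorm β < ⊤ →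
      ∀ δ : ℝ, 0 < δ → C * δ ≤ 1 → diffNorm Ω β ≤ ENNReal.ofReal δ →
        bmoNorm β ≤ ENNReal.ofReal (8 * (C * δ)) := by
  obtain ⟨u0, hu0, hne⟩ := h0
  obtain ⟨κ, hκ, hosc⟩ := oscillation hΩ hu0 hne
  have hgam : 0 < helper30.JS.gam n := helper30.JS.gam_pos
  set C : ℝ := √(24 / helper30.JS.gam n) / κ with hC
  have hCpos : 0 < C := by positivity
  refine ⟨C, hCpos, ?_⟩
  intro β hβ hbmo δ hδ hCδ hD
  set s : ℝ := C * δ with hs
  have hspos : 0 < s := by positivity
  have hlevel : 6 * δ ^ 2 / (κ ^ 2 * (1 - Real.exp (-s)) ^ 2) ≤ helper30.JS.gam n := by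
    have h1 := one_sub_exp_ge hspos.le hCδ
    have h2 : (s / 2) ^ 2 ≤ (1 - Real.exp (-s)) ^ 2 := pow_le_pow_left₀ (by positivity) h1 2
    have h3 : s ^ 2 * κ ^ 2 = 24 / helper30.JS.gam n * δ ^ 2 := by
      rw [hs, hC]
      have : √(24 / helper30.JS.gam n) ^ 2 = 24 / helper30.JS.gam n :=
        Real.sq_sqrt (by positivity)
      calc (√(24 / helper30.JS.gam n) / κ * δ) ^ 2 * κ ^ 2
          = √(24 / helper30.JS.gam n) ^ 2 * δ ^ 2 * (κ ^ 2 / κ ^ 2) := by ring
        _ = 24 / helper30.JS.gam n * δ ^ 2 := by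
          rw [this, div_self (by positivity), mul_one]
    have h4 : κ ^ 2 * (s / 2) ^ 2 = 6 * δ ^ 2 / helper30.JS.gam n := by
      calc κ ^ 2 * (s / 2) ^ 2 = (s ^ 2 * κ ^ 2) / 4 := by ring
        _ = _ := by rw [h3]; ring
    calc 6 * δ ^ 2 / (κ ^ 2 * (1 - Real.exp (-s)) ^ 2) ≤ 6 * δ ^ 2 / (κ ^ 2 * (s / 2) ^ 2) := by
          gcongr
      _ = helper30.JS.gam n := by
          rw [h4]; field_simp
  have hloc : ∀ (c : E n) (r : ℝ), 0 < r → ∃ m : ℝ, volume {x ∈ cube c r | s < |β x - m|} ≤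
      ENNReal.ofReal (helper30.JS.gam n) * volume (cube c r) := by
    intro c r hr
    obtain ⟨m, hm⟩ := hosc β hβ δ hδ.le hD c r hr
    refine ⟨m, (hm s hspos).trans ?_⟩
    gcongr
  -- transfer to the space of functions with the maximum distance
  have hmp := PiLp.volume_preserving_toLp (Fin n)
  have hemb : MeasurableEmbedding (WithLp.toLp 2 : (Fin n → ℝ) → E n) :=
    (MeasurableEquiv.toLp 2 (Fin n → ℝ)).measurableEmbedding
  set β' : (Fin n → ℝ) → ℝ := fun x => β (WithLp.toLp 2 x) with hβ'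
  have hβ'm : AEMeasurable β' volume :=
    hβ.aestronglyMeasurable.aemeasurable.comp_quasiMeasurePreserving hmp.quasiMeasurePreserving
  have hball : ∀ (c : Fin n → ℝ) (r : ℝ), 0 ≤ r →
      closedBall c r = (WithLp.toLp 2 : (Fin n → ℝ) → E n) ⁻¹' cube (WithLp.toLp 2 c) r := by
    intro c r hr
    rw [preimage_cube _ _ hr]
  have hlint : ∀ (c : Fin n → ℝ) (r : ℝ), 0 ≤ r → ∀ m : ℝ,
      ∫⁻ x in closedBall c r, ‖β' x - m‖ₑ = ∫⁻ x in cube (WithLp.toLp 2 c) r, ‖β x - m‖ₑ := by
    intro c r hr m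
    rw [hball c r hr]
    exact hmp.setLIntegral_comp_preimage_emb hemb (fun x => ‖β x - m‖ₑ) _
  have hvol : ∀ (c : Fin n → ℝ) (r : ℝ), 0 ≤ r →
      volume (closedBall c r) = volume (cube (WithLp.toLp 2 c) r) := by
    intro c r hr
    rw [hball c r hr, volume_preimage]
  have hb0 : ∀ (c : E n) (r : ℝ), 0 < r → ∫⁻ x in cube c r, ‖β x - ⨍ y in cube c r, β y‖ₑ ≤
      bmoNorm β * volume (cube c r) := by
    intro c r hr
    have hv : volume (cube c r) = ENNReal.ofReal ((2 * r) ^ n) := volume_cube c hr.le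
    have hv0 : volume (cube c r) ≠ 0 := by
      rw [hv]; simp only [ne_eq, ENNReal.ofReal_eq_zero, not_le]; positivity
    have hvt : volume (cube c r) ≠ ⊤ := by rw [hv]; exact ENNReal.ofReal_ne_top
    rw [← ENNReal.div_le_iff hv0 hvt]
    unfold bmoNorm
    exact le_iSup_of_le c (le_iSup_of_le r (le_iSup_of_le hr le_rfl))
  have hkey := helper30.JS.bmo_small (β := β') hβ'm (A := (bmoNorm β).toReal + 1)
    (by positivity) (s := s) ?_ ?_
  · -- conclusion
    unfold bmoNorm
    refine iSup_le fun c => iSup_le fun r => iSup_le fun hr => ?_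
    have hv : volume (cube c r) = ENNReal.ofReal ((2 * r) ^ n) := volume_cube c hr.le
    have hv0 : volume (cube c r) ≠ 0 := by
      rw [hv]; simp only [ne_eq, ENNReal.ofReal_eq_zero, not_le]; positivity
    have hvt : volume (cube c r) ≠ ⊤ := by rw [hv]; exact ENNReal.ofReal_ne_top
    rw [ENNReal.div_le_iff hv0 hvt]
    obtain ⟨m, hm⟩ := hkey (WithLp.ofLp c) r hr
    rw [hlint _ r hr.le, hvol _ r hr.le] at hm
    refine (average_bound hβ c hr hm).trans (le_of_eq ?_)
    congr 1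
    rw [ENNReal.ofReal_mul (by norm_num : (0 : ℝ) ≤ 8)]
    rw [← mul_assoc]
    congr 1
    norm_num
  · intro c r hr
    refine ⟨⨍ y in cube (WithLp.toLp 2 c) r, β y, ?_⟩
    rw [hlint c r hr.le, hvol c r hr.le]
    refine (hb0 _ r hr).trans ?_
    gcongr
    rw [ENNReal.ofReal_add ENNReal.toReal_nonneg (by norm_num), ENNReal.ofReal_toReal hbmo.ne]
    exact le_self_add
  · intro c r hr
    obtain ⟨m, hm⟩ := hloc (WithLp.toLp 2 c) r hr
    refine ⟨m, ?_⟩
    have : {x ∈ closedBall c r | s < |β' x - m|} =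
        (WithLp.toLp 2 : (Fin n → ℝ) → E n) ⁻¹' {x ∈ cube (WithLp.toLp 2 c) r | s < |β x - m|} := by
      rw [hball c r hr.le]; rfl
    rw [this, volume_preimage, hvol c r hr.le]
    exact hm

/-- **Main theorem.** Let `Ω` be continuous on the unit sphere and not identically zero (in
particular, `Ω` may be any nonzero smooth function of mean zero). There are constants `C > 0` and
`δ₀ > 0` such that `‖β‖_* ≤ C ‖K - K_β‖` for every `β ∈ BMO` with `‖K - K_β‖ < δ₀`. -/
theorem result (n : ℕ) (Ω : E n → ℂ) (hΩ : ContinuousOn Ω (sphere 0 1))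
    (h0 : ∃ u ∈ sphere (0 : E n) 1, Ω u ≠ 0) :
    ∃ C > (0 : ℝ), ∃ δ₀ > (0 : ℝ), ∀ β : E n → ℝ, LocallyIntegrable β volume →
      bmoNorm β < ⊤ → diffNorm Ω β < ENNReal.ofReal δ₀ →
        bmoNorm β ≤ ENNReal.ofReal C * diffNorm Ω β := by
  obtain ⟨C, hC, hmain⟩ := main_bound hΩ h0
  refine ⟨8 * C, by positivity, 1 / C, by positivity, ?_⟩
  intro β hβ hbmo hD
  by_contra hcon
  push Not at hcon
  set D := diffNorm Ω β with hDdef
  have hC80 : ENNReal.ofReal (8 * C) ≠ 0 := by
    simp only [ne_eq, ENNReal.ofReal_eq_zero, not_le]; positivity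
  have h1 : D < bmoNorm β / ENNReal.ofReal (8 * C) := by
    rw [ENNReal.lt_div_iff_mul_lt (Or.inl hC80) (Or.inl ENNReal.ofReal_ne_top), mul_comm]
    exact hcon
  obtain ⟨t, ht1, ht2⟩ := exists_between (lt_min h1 hD)
  have htt : t ≠ ⊤ := ne_top_of_lt ht2
  have ht3 : t < bmoNorm β / ENNReal.ofReal (8 * C) := ht2.trans_le (min_le_left _ _)
  have ht4 : t < ENNReal.ofReal (1 / C) := ht2.trans_le (min_le_right _ _)
  have htpos : 0 < t := lt_of_le_of_lt bot_le ht1
  set δ := t.toReal with hδ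
  have hδpos : 0 < δ := ENNReal.toReal_pos htpos.ne' htt
  have hδt : ENNReal.ofReal δ = t := ENNReal.ofReal_toReal htt
  have h2 : C * δ ≤ 1 := by
    have : δ < 1 / C := by
      rw [← ENNReal.ofReal_lt_ofReal_iff (by positivity), hδt]
      exact ht4
    have h3 := mul_lt_mul_of_pos_left this hC
    rw [mul_one_div_cancel hC.ne'] at h3
    exact h3.le
  have h3 := hmain β hβ hbmo δ hδpos h2 (by rw [hδt]; exact ht1.le)
  rw [ENNReal.lt_div_iff_mul_lt (Or.inl hC80) (Or.inl ENNReal.ofReal_ne_top)] at ht3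
  have h4 : ENNReal.ofReal (8 * (C * δ)) = t * ENNReal.ofReal (8 * C) := by
    rw [← hδt, ← ENNReal.ofReal_mul hδpos.le]
    congr 1; ring
  rw [h4] at h3
  exact absurd ht3 (not_lt.2 h3)

/-- The form in which the question is posed. -/
theorem small_of_small (n : ℕ) (Ω : E n → ℂ) (hΩ : ContinuousOn Ω (sphere 0 1))
    (h0 : ∃ u ∈ sphere (0 : E n) 1, Ω u ≠ 0) (ε : ℝ) (hε : 0 < ε) :
    ∃ δ > (0 : ℝ), ∀ β : E n → ℝ, LocallyIntegrable β volume → bmoNorm β < ⊤ →
      diffNorm Ω β < ENNReal.ofReal δ → bmoNorm β < ENNReal.ofReal ε := by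
  obtain ⟨C, hC, δ₀, hδ₀, h⟩ := result n Ω hΩ h0
  refine ⟨min δ₀ (ε / C), by positivity, ?_⟩
  intro β hβ hbmo hD
  have h1 : diffNorm Ω β < ENNReal.ofReal δ₀ :=
    hD.trans_le (ENNReal.ofReal_le_ofReal (min_le_left _ _))
  have h2 : diffNorm Ω β < ENNReal.ofReal (ε / C) :=
    hD.trans_le (ENNReal.ofReal_le_ofReal (min_le_right _ _))
  have hC0 : ENNReal.ofReal C ≠ 0 := by simpa using hC
  calc bmoNorm β ≤ ENNReal.ofReal C * diffNorm Ω β := h β hβ hbmo h1
    _ < ENNReal.ofReal C * ENNReal.ofReal (ε / C) :=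
        ENNReal.mul_lt_mul_right hC0 ENNReal.ofReal_ne_top h2
    _ = ENNReal.ofReal ε := by
        rw [← ENNReal.ofReal_mul hC.le]
        congr 1; field_simp

end Pool.Agent.Results.MP_9d555c_an.SmallBMO
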